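import Pool.Agent.W203.WS.Stm

set_option autoImplicit false

open MeasureTheory Finset Filter Topology

namespace Pool.Agent.W617.WS
open Pool.Agent.W203.WS

theorem Kr_le {ε x η : ℝ} (hε : 0 < ε) (hη : 0 ≤ η) (hx : η ≤ |x|) :
    Kr ε x ≤ Real.exp (-Real.pi * (η / ε) ^ 2) := by
  unfold Kr
  apply Real.exp_le_exp.mpr
  have h1 : (η / ε) ^ 2 ≤ (x / ε) ^ 2 := by
    rw [div_pow, div_pow]
    apply div_le_div_of_nonneg_right _ (by positivity)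
    rw [← sq_abs x]
    exact pow_le_pow_left₀ hη hx 2
  nlinarith [Real.pi_pos]

theorem rr_le (k s P : ℕ) {ε M η : ℝ} (θ : Fin s → ℝ) (hε : 0 < ε) (hη : 0 ≤ η)
    (hno : ∀ x ∈ Fintype.piFinset (fun _ : Fin s => Ico P (4 * P)),
      η ≤ |(∑ i, ((x i : ℝ) + θ i) ^ k) - M|) :
    rr k s P ε M θ ≤ (3 * (P : ℝ)) ^ s * Real.exp (-Real.pi * (η / ε) ^ 2) := by
  unfold rr
  have h1 := Finset.sum_le_card_nsmul (Fintype.piFinset (fun _ : Fin s => Ico P (4 * P)))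
    (fun x => Kr ε ((∑ i, ((x i : ℝ) + θ i) ^ k) - M))
    (Real.exp (-Real.pi * (η / ε) ^ 2)) (fun x hx => Kr_le hε hη (hno x hx))
  refine h1.trans (le_of_eq ?_)
  rw [Fintype.card_piFinset]
  have h2 : 4 * P - P = 3 * P := by omega
  simp only [Nat.card_Ico, h2, Finset.prod_const, Finset.card_univ, Fintype.card_fin, nsmul_eq_mul]
  push_cast
  ring

theorem decay (a b g c : ℝ) (hb : 0 < b) (hg : 0 < g) (hc : 0 < c) (K : ℝ) (hK : 0 < K) :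
    ∃ j₁ : ℕ, ∀ j : ℕ, j₁ ≤ j → K * (((2:ℝ) ^ j) ^ a * Real.exp (-b * ((2:ℝ) ^ j) ^ g)) < c := by
  have h1 : Tendsto (fun x : ℝ => x ^ (a / g) * Real.exp (-b * x)) atTop (𝓝 0) :=
    tendsto_rpow_mul_exp_neg_mul_atTop_nhds_zero (a / g) b hb
  have h2 : Tendsto (fun x : ℝ => x ^ g) atTop atTop := tendsto_rpow_atTop hg
  have h3 : Tendsto (fun j : ℕ => (2:ℝ) ^ j) atTop atTop :=
    tendsto_pow_atTop_atTop_of_one_lt (by norm_num)
  have h4 := (h1.comp (h2.comp h3)).const_mul K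
  rw [mul_zero] at h4
  have h5 := (h4.eventually (gt_mem_nhds hc))
  obtain ⟨j₁, hj₁⟩ := eventually_atTop.mp h5
  refine ⟨j₁, fun j hj => ?_⟩
  have := hj₁ j hj
  simp only [Function.comp] at this
  have hp : (0:ℝ) < 2 ^ j := by positivity
  rw [← Real.rpow_mul hp.le, mul_div_cancel₀ a hg.ne'] at this
  exact this

theorem t_MAIN (h : S_BC) : S_MAIN := by
  intro k s δ hk hs hδ
  have hkR : (2:ℝ) ≤ k := by exact_mod_cast hk
  have hsR : 2 * (k:ℝ) < s := by exact_mod_cast hs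
  have hkpos : (0:ℝ) < 2 * k := by linarith
  obtain ⟨d, hd0, hδd, hd1⟩ : ∃ d : ℝ, 0 ≤ d ∧ δ ≤ d ∧ d < ((s:ℝ) - 2 * k) / (2 * k) :=
    ⟨max δ 0, le_max_right _ _, le_max_left _ _, max_lt hδ (div_pos (by linarith) hkpos)⟩
  have hkd : (k:ℝ) * d < s / 2 - k := by
    rw [lt_div_iff₀ hkpos] at hd1
    linarith
  have hkd0 : 0 ≤ (k:ℝ) * d := mul_nonneg (by linarith) hd0
  obtain ⟨β, hβ⟩ : ∃ β : ℝ, β = ((k:ℝ) * d + (s / 2 - k)) / 2 := ⟨_, rfl⟩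
  have hβ1 : (k:ℝ) * d < β := by rw [hβ]; linarith
  have hβ2 : β < (s:ℝ) / 2 - k := by rw [hβ]; linarith
  have hβ0 : 0 ≤ β := by linarith
  obtain ⟨c, hc, hae⟩ := h k s β hk hs hβ0 hβ2
  filter_upwards [hae] with θ hθ
  obtain ⟨j₀, hj₀⟩ := hθ
  intro L
  -- constants
  have hspos : (0:ℝ) < s := by linarith
  have hA : (0:ℝ) < (s:ℝ) * 3 ^ k := by positivity
  set c1 : ℝ := Real.pi * ((((s:ℝ) * 3 ^ k) ^ (-d)) ^ 2) with hc1
  have hc1pos : 0 < c1 := by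
    have := Real.rpow_pos_of_pos hA (-d)
    positivity
  obtain ⟨j₁, hj₁⟩ := decay ((k:ℝ) + β) c1 (2 * (β - k * d)) c hc1pos (by linarith) hc
    ((3:ℝ) ^ s) (by positivity)
  -- the threshold
  set J : ℕ := max (max j₀ j₁) L with hJ
  refine ⟨max 1 ((s:ℝ) * (3 / 2 * (2:ℝ) ^ J) ^ k), fun M hM => ?_⟩
  have hM1 : 1 ≤ M := (le_max_left _ _).trans hM
  have hM2 : (s:ℝ) * (3 / 2 * (2:ℝ) ^ J) ^ k ≤ M := (le_max_right _ _).trans hM
  have hs1 : (1:ℝ) ≤ s := by linarith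
  have hex : ∃ n : ℕ, M < (s:ℝ) * (3 / 2 * (2:ℝ) ^ n) ^ k := by
    obtain ⟨n, hn⟩ := pow_unbounded_of_one_lt M (show (1:ℝ) < 2 by norm_num)
    refine ⟨n, hn.trans_le ?_⟩
    have h2 : (1:ℝ) ≤ 2 ^ n := one_le_pow₀ (by norm_num)
    have h3 : (2:ℝ) ^ n ≤ 3 / 2 * 2 ^ n := by linarith
    have h4 : (1:ℝ) ≤ 3 / 2 * 2 ^ n := by linarith
    have h5 : 3 / 2 * (2:ℝ) ^ n ≤ (3 / 2 * 2 ^ n) ^ k := le_self_pow₀ h4 (by omega)
    have h6 : (3 / 2 * (2:ℝ) ^ n) ^ k ≤ s * (3 / 2 * 2 ^ n) ^ k :=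
      le_mul_of_one_le_left (by positivity) hs1
    linarith
  classical
  have hn := Nat.find_spec hex
  set n := Nat.find hex with hndef
  have hJn : J < n := by
    by_contra hcon
    push_neg at hcon
    have : (s:ℝ) * (3 / 2 * (2:ℝ) ^ n) ^ k ≤ s * (3 / 2 * (2:ℝ) ^ J) ^ k := by
      apply mul_le_mul_of_nonneg_left _ hspos.le
      apply pow_le_pow_left₀ (by positivity)
      apply mul_le_mul_of_nonneg_left _ (by norm_num)
      exact pow_le_pow_right₀ (by norm_num) hcon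
    linarith
  obtain ⟨j, hj⟩ : ∃ j, n = j + 1 := ⟨n - 1, by omega⟩
  have hJj : J ≤ j := by omega
  have hlow : (s:ℝ) * (3 / 2 * (2:ℝ) ^ j) ^ k ≤ M := by
    have := Nat.find_min hex (m := j) (by rw [← hndef]; omega)
    push_neg at this
    exact this
  have hup : M ≤ (s:ℝ) * (3 * (2:ℝ) ^ j) ^ k := by
    have h1 : 3 / 2 * (2:ℝ) ^ (j + 1) = 3 * 2 ^ j := by rw [pow_succ]; ring
    rw [hj, h1] at hn
    exact hn.le
  have hj0 : j₀ ≤ j := (le_max_left _ _).trans ((le_max_left _ _).trans hJj)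
  have hj1 : j₁ ≤ j := (le_max_right _ _).trans ((le_max_left _ _).trans hJj)
  have hjL : L ≤ j := (le_max_right _ _).trans hJj
  have hrr := hj₀ j hj0 M hlow hup
  have hdec := hj₁ j hj1
  have hP : (0:ℝ) < 2 ^ j := by positivity
  have hMpos : 0 < M := by linarith
  -- find x
  by_contra hcon
  push_neg at hcon
  have hno : ∀ x ∈ Fintype.piFinset (fun _ : Fin s => Ico ((2:ℕ) ^ j) (4 * (2:ℕ) ^ j)),
      M ^ (-d) ≤ |(∑ i, ((x i : ℝ) + θ i) ^ k) - M| := by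
    intro x hx
    have hxL : ∀ i, L ≤ x i := by
      intro i
      have h1 := (Finset.mem_Ico.mp ((Fintype.mem_piFinset.mp hx) i)).1
      have h2 : j < 2 ^ j := Nat.lt_two_pow_self
      omega
    refine le_trans ?_ (hcon x hxL)
    exact Real.rpow_le_rpow_of_exponent_le hM1 (by linarith)
  have hη : ((s:ℝ) * (3 * (2:ℝ) ^ j) ^ k) ^ (-d) ≤ M ^ (-d) :=
    Real.rpow_le_rpow_of_nonpos hMpos hup (by linarith)
  have hε : (0:ℝ) < ((2:ℝ) ^ j) ^ (-β) := Real.rpow_pos_of_pos hP _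
  have hle := rr_le k s (2 ^ j) (ε := ((2:ℝ) ^ j) ^ (-β)) (M := M)
    (η := ((s:ℝ) * (3 * (2:ℝ) ^ j) ^ k) ^ (-d)) θ hε (by positivity)
    (fun x hx => hη.trans (hno x hx))
  -- simplify the exponent
  have hexp : -Real.pi * (((s:ℝ) * (3 * (2:ℝ) ^ j) ^ k) ^ (-d) / ((2:ℝ) ^ j) ^ (-β)) ^ 2 =
      -c1 * ((2:ℝ) ^ j) ^ (2 * (β - k * d)) := by
    have e1 : (s:ℝ) * (3 * (2:ℝ) ^ j) ^ k = ((s:ℝ) * 3 ^ k) * ((2:ℝ) ^ j) ^ (k:ℝ) := by
      rw [Real.rpow_natCast, mul_pow]; ring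
    rw [e1, Real.mul_rpow hA.le (by positivity), ← Real.rpow_mul hP.le, mul_div_assoc,
      ← Real.rpow_sub hP, mul_pow, ← Real.rpow_natCast (((2:ℝ) ^ j) ^ ((k:ℝ) * -d - -β)) 2,
      ← Real.rpow_mul hP.le, hc1]
    have e2 : ((k:ℝ) * -d - -β) * ((2:ℕ):ℝ) = 2 * (β - k * d) := by push_cast; ring
    rw [e2]
    ring
  rw [hexp] at hle
  have hpush : (((2:ℕ) ^ j : ℕ) : ℝ) = (2:ℝ) ^ j := by push_cast; rfl
  rw [hpush] at hle
  have hfin := hrr.trans hle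
  -- c P^(s-k-β) ≤ (3P)^s exp(..)
  have e3 : (3 * (2:ℝ) ^ j) ^ s * Real.exp (-c1 * ((2:ℝ) ^ j) ^ (2 * (β - k * d))) =
      ((3:ℝ) ^ s * (((2:ℝ) ^ j) ^ ((k:ℝ) + β) * Real.exp (-c1 * ((2:ℝ) ^ j) ^ (2 * (β - k * d))))) *
        ((2:ℝ) ^ j) ^ ((s:ℝ) - k - β) := by
    have e4 : (3 * (2:ℝ) ^ j) ^ s = (3:ℝ) ^ s * (((2:ℝ) ^ j) ^ ((k:ℝ) + β) *
        ((2:ℝ) ^ j) ^ ((s:ℝ) - k - β)) := by
      rw [← Real.rpow_add hP, mul_pow]
      congr 1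
      rw [← Real.rpow_natCast ((2:ℝ) ^ j) s]
      congr 1
      ring
    rw [e4]; ring
  rw [e3] at hfin
  have hQ : (0:ℝ) < ((2:ℝ) ^ j) ^ ((s:ℝ) - k - β) := Real.rpow_pos_of_pos hP _
  have := le_of_mul_le_mul_right hfin hQ
  linarith

end Pool.Agent.W617.WS
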